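import Mathlib
import Pool.Agent.H57.Aro5

set_option autoImplicit false

open Pool.Agent.H57.Aro

namespace Pool.Agent.Results.MP_656653_lc.UniversalLots

/-- Under Martin's axiom for `ℵ₁` dense sets, a universal Aronszajn LOTS exists exactly when a
universal Aronszajn line exists. -/
theorem result (hMA : MA1) :
    (∃ (U : Type) (_ : LinearOrder U), UnivLots U) ↔
      ∃ (Z : Type) (_ : LinearOrder Z), UnivLine Z := by
  constructor
  · rintro ⟨U, _, h1, h2⟩
    refine ⟨U, inferInstance, h1, fun A _ hA => ?_⟩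
    obtain ⟨f, h3, h4, -⟩ := h2 A hA
    exact ⟨OrderEmbedding.ofStrictMono f (h4.strictMono_of_injective h3)⟩
  · rintro ⟨Z, _, h1, h2⟩
    obtain ⟨U, _, h3, h4⟩ := hull hMA Z h1
    exact ⟨U, inferInstance, h3, fun A _ hA => h4 A hA (h2 A hA)⟩

end Pool.Agent.Results.MP_656653_lc.UniversalLots
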